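import Mathlib
import Pool.Agent.Y777.AM.Hf

/-!
# Expansions of multiple zeta values in the Hoffman elements have large coefficients

Let `z` be a combination of at most `N` multiple zeta values of weight `k` whose first arguments
(of the largest variable) are at least `δ k`, with coefficients at most `C ^ k`, not zero at some
index of bounded depth. If `k` is large then every expansion of `z` in the values at the words in
`2` and `3`, with real coefficients, has a coefficient larger than `(k!) ^ c`, for every `c < 1`.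

The proof uses the subspace theorem (helper files `Pool.Agent.Y777.AL`, `Pool.Agent.Y777.AM`, after
`Pool.Agent.Y760.ZG`) for the lower bound of `|z|`.
-/

set_option autoImplicit false

namespace Pool.Agent.Results.MP_301213_nt.LargeCoefficients

/-- `trunc [s_1, ..., s_r] m` is the sum of `∏ n_i ^ (-s_i)` over `m > n_1 > ... > n_r ≥ 1` -/
noncomputable def trunc : List ℕ → ℕ → ℝ
  | [], _ => 1
  | s :: l, m => ∑ j ∈ Finset.Ico 1 m, trunc l j / (j : ℝ) ^ s

/-- the multiple zeta value, the sum of `∏ n_i ^ (-s_i)` over `n_1 > ... > n_r ≥ 1`; in the notation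
of the problem file this is `ζ(s_r, ..., s_1)`, the argument `s_1` belongs to the largest
variable -/
noncomputable def mzv : List ℕ → ℝ
  | [] => 1
  | s :: l => ∑' m : ℕ, trunc l (m + 1) / ((m + 1 : ℕ) : ℝ) ^ s

lemma trunc_eq (w : List ℕ) : ∀ m, trunc w m = Pool.Agent.Y760.ZG.hr w m := by
  induction w with
  | nil => intro m; rw [trunc, Pool.Agent.Y760.ZG.hr_nil]
  | cons s w ih =>
    intro m
    rw [trunc, Pool.Agent.Y760.ZG.hr_cons]
    exact Finset.sum_congr rfl fun j _ => by rw [ih]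

lemma mzv_eq (w : List ℕ) : mzv w = Pool.Agent.Y760.ZG.mz w := by
  cases w with
  | nil => rw [mzv, Pool.Agent.Y760.ZG.mz]
  | cons s w =>
    rw [mzv, Pool.Agent.Y760.ZG.mz]
    exact tsum_congr fun m => by rw [trunc_eq]

/-- Let `β_1, ..., β_l` be real algebraic numbers, linearly independent over `ℚ`, let `N`, `r` be
numbers, `δ > 0`, `C` real and `c < 1`. There are `B > 1` and `k0` such that for all `k ≥ k0`, all
sets `V` of at most `N` indices of weight `k` with first argument at least `δ k`, all sets `H` of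
words in `2` and `3` of weight `k`, all coefficients `a_v = ∑ a_{v j} β_j` with integers `a_{v j}` of
absolute value at most `C ^ k`, such that `a_v ≠ 0` for some `v` in `V` of depth at most `r`, and
all real numbers `b_h` of absolute value at most `(k!) ^ c`:
`|∑_V a_v ζ(v) - ∑_H b_h ζ(h)| > B ^ (-k)`. -/
theorem result {l : ℕ} (β : Fin l → ℝ) (hβ : ∀ j, IsAlgebraic ℚ (β j))
    (hli : LinearIndependent ℚ β) (N r : ℕ) (δ C c : ℝ) (hδ : 0 < δ) (hc : c < 1) :
    ∃ B : ℝ, 1 < B ∧ ∃ k0 : ℕ, ∀ k : ℕ, k0 ≤ k → ∀ V H : Finset (List ℕ), V.card ≤ N →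
      (∀ v ∈ V, (∀ s ∈ v, 1 ≤ s) ∧ v.sum = k ∧ ∀ s ∈ v.head?, δ * k ≤ s) →
      (∀ h ∈ H, (∀ s ∈ h, s = 2 ∨ s = 3) ∧ h.sum = k) →
      ∀ (a : List ℕ → Fin l → ℤ) (b : List ℕ → ℝ), (∃ v ∈ V, v.length ≤ r ∧ a v ≠ 0) →
      (∀ v ∈ V, ∀ j, |(a v j : ℝ)| ≤ C ^ k) → (∀ h ∈ H, |b h| ≤ (k.factorial : ℝ) ^ c) →
      (B ^ k)⁻¹ < |∑ v ∈ V, (∑ j, a v j * β j) * mzv v - ∑ h ∈ H, b h * mzv h| := by
  obtain ⟨B, hB, k0, h⟩ := Pool.Agent.Y777.AM.Hoff β hβ hli N r δ C c hδ hc
  refine ⟨B, hB, k0, fun k hk V H hVN hV hH a b ha haC hbC => ?_⟩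
  have h1 := h k hk V H hVN hV hH a b (by
      obtain ⟨v, hv, h2, h3⟩ := ha
      refine ⟨v, hv, h2, ?_⟩
      by_contra hcon
      push Not at hcon
      exact h3 (funext hcon)) haC hbC
  refine lt_of_lt_of_eq h1 ?_
  congr 2
  · refine Finset.sum_congr rfl fun v _ => ?_
    rw [Finset.sum_mul, mzv_eq]
    exact Finset.sum_congr rfl fun j _ => by ring
  · exact Finset.sum_congr rfl fun v _ => by rw [mzv_eq]

end Pool.Agent.Results.MP_301213_nt.LargeCoefficients
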